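import Pool.Agent.H90.SPW.Targets

/-!
# Row PI: small children of a bridge are improbable
-/

set_option autoImplicit false

open Finset Pool.Agent.H90.SPW
open scoped BigOperators Classical

namespace Pool.Agent.H1.SPW

theorem pf_PI : T_PI := by
  intro X E Y _ _ c i h j x x' eta heta
  have h1 : ∀ a b, (if c.P h a b < eta then c.P i x a * c.P h a b * c.P j b x' else 0) ≤
      c.P i x a * (eta * c.P j b x') := by
    intro a b
    have ha := c.P_nonneg i x a
    have hb := c.P_nonneg j b x'
    have hh := c.P_nonneg h a b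
    split_ifs with hlt
    · rw [mul_assoc]
      exact mul_le_mul_of_nonneg_left (mul_le_mul_of_nonneg_right hlt.le hb) ha
    · positivity
  have h2 : ∀ a, ∑ b, c.P i x a * (eta * c.P j b x') ≤ c.P i x a * eta := by
    intro a
    rw [← Finset.mul_sum, ← Finset.mul_sum]
    refine mul_le_mul_of_nonneg_left ?_ (c.P_nonneg i x a)
    exact mul_le_of_le_one_right heta (c.in_sum_le j x')
  calc ∑ a, ∑ b, (if c.P h a b < eta then c.P i x a * c.P h a b * c.P j b x' else 0)
      ≤ ∑ a, c.P i x a * eta := Finset.sum_le_sum fun a _ =>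
        (Finset.sum_le_sum fun b _ => h1 a b).trans (h2 a)
    _ = (∑ a, c.P i x a) * eta := by rw [Finset.sum_mul]
    _ ≤ eta := mul_le_of_le_one_left heta (c.out_sum_le i x)

end Pool.Agent.H1.SPW
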