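import Pool.Agent.H90.SPW.Targets

/-!
# Row PJ: entropy of a child of a bridge
-/

set_option autoImplicit false

open Finset Pool.Agent.H90.SPW
open scoped BigOperators Classical

namespace Pool.Agent.H1.SPW

/-- the tangent line of `- p log p` -/
theorem neg_mul_log_le (Z p : ℝ) (hZ : 0 < Z) (hp : 0 ≤ p) :
    -(p * Real.log p) ≤ -(p * Real.log Z) + Z - p := by
  rcases hp.eq_or_lt with rfl | hp
  · simp
    exact hZ.le
  · have h1 := Real.log_le_sub_one_of_pos (div_pos hZ hp)
    rw [Real.log_div hZ.ne' hp.ne'] at h1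
    have h2 := mul_le_mul_of_nonneg_left h1 hp.le
    have h3 : p * (Z / p - 1) = Z - p := by
      field_simp
    rw [h3] at h2
    linarith

theorem pf_PJ : T_PJ := by
  intro X E Y _ _ c i h j x x'
  set Z := c.P (i + h + j) x x' with hZdef
  have hZ : Z = ∑ a, ∑ b, c.P i x a * c.P h a b * c.P j b x' := by
    rw [hZdef, c.P_add]
    simp_rw [c.P_add i h, Finset.sum_mul]
    rw [Finset.sum_comm]
  have hnn : ∀ a b, 0 ≤ c.P i x a * c.P h a b * c.P j b x' := fun a b =>
    mul_nonneg (mul_nonneg (c.P_nonneg i x a) (c.P_nonneg h a b)) (c.P_nonneg j b x')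
  have hZ0 : 0 ≤ Z := c.P_nonneg _ _ _
  rcases hZ0.eq_or_lt with h0 | hpos
  · -- all terms are zero
    have h1 : ∀ a, ∑ b, c.P i x a * c.P h a b * c.P j b x' = 0 := by
      intro a
      have := (Finset.sum_eq_zero_iff_of_nonneg
        (f := fun a => ∑ b, c.P i x a * c.P h a b * c.P j b x') (s := Finset.univ)
        (fun a _ => Finset.sum_nonneg fun b _ => hnn a b)).1 (hZ.symm.trans h0.symm)
      exact this a (Finset.mem_univ a)
    have h2 : ∀ a b, c.P i x a * c.P h a b * c.P j b x' = 0 := by
      intro a b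
      have := (Finset.sum_eq_zero_iff_of_nonneg
        (f := fun b => c.P i x a * c.P h a b * c.P j b x') (s := Finset.univ)
        (fun b _ => hnn a b)).1 (h1 a)
      exact this b (Finset.mem_univ b)
    rw [← h0, zero_mul, neg_zero]
    refine le_of_eq (Finset.sum_eq_zero fun a _ => Finset.sum_eq_zero fun b _ => ?_)
    have h3 : c.P i x a * (-(c.P h a b * Real.log (c.P h a b))) * c.P j b x' =
        -(c.P i x a * c.P h a b * c.P j b x') * Real.log (c.P h a b) := by ring
    rw [h3, h2 a b, neg_zero, zero_mul]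
  · have h1 : ∀ a b, c.P i x a * (-(c.P h a b * Real.log (c.P h a b))) * c.P j b x' ≤
        -(c.P i x a * c.P h a b * c.P j b x') * (Real.log Z + 1) +
          Z * (c.P i x a * c.P j b x') := by
      intro a b
      have ha := c.P_nonneg i x a
      have hb := c.P_nonneg j b x'
      have h2 := neg_mul_log_le Z (c.P h a b) hpos (c.P_nonneg h a b)
      have h3 := mul_le_mul_of_nonneg_right (mul_le_mul_of_nonneg_left h2 ha) hb
      refine h3.trans (le_of_eq ?_)
      ring
    have h2 : ∑ a, ∑ b, (-(c.P i x a * c.P h a b * c.P j b x') * (Real.log Z + 1) +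
          Z * (c.P i x a * c.P j b x')) =
        -Z * (Real.log Z + 1) + Z * ((∑ a, c.P i x a) * ∑ b, c.P j b x') := by
      have e1 : ∑ a, ∑ b, -(c.P i x a * c.P h a b * c.P j b x') * (Real.log Z + 1) =
          -Z * (Real.log Z + 1) := by
        rw [hZ, ← Finset.sum_neg_distrib, Finset.sum_mul]
        refine Finset.sum_congr rfl fun a _ => ?_
        rw [← Finset.sum_neg_distrib, Finset.sum_mul]
      have e2 : ∑ a, ∑ b, Z * (c.P i x a * c.P j b x') =
          Z * ((∑ a, c.P i x a) * ∑ b, c.P j b x') := by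
        rw [Finset.sum_mul_sum, Finset.mul_sum]
        refine Finset.sum_congr rfl fun a _ => ?_
        rw [Finset.mul_sum]
      rw [← e1, ← e2, ← Finset.sum_add_distrib]
      refine Finset.sum_congr rfl fun a _ => ?_
      rw [← Finset.sum_add_distrib]
    have h3 : (∑ a, c.P i x a) * ∑ b, c.P j b x' ≤ 1 :=
      mul_le_one₀ (c.out_sum_le i x) (Finset.sum_nonneg fun b _ => c.P_nonneg j b x')
        (c.in_sum_le j x')
    calc ∑ a, ∑ b, c.P i x a * (-(c.P h a b * Real.log (c.P h a b))) * c.P j b x'
        ≤ _ := Finset.sum_le_sum fun a _ => Finset.sum_le_sum fun b _ => h1 a b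
      _ = _ := h2
      _ ≤ -Z * (Real.log Z + 1) + Z * 1 := by
          have := mul_le_mul_of_nonneg_left h3 hpos.le
          linarith
      _ = -(Z * Real.log Z) := by ring

end Pool.Agent.H1.SPW
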