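import Pool.Agent.H90.SPW.Targets

/-!
# Row RA: pairs of amplified uses
-/

set_option autoImplicit false

open Finset Pool.Agent.H90.SPW
open scoped BigOperators Classical

namespace Pool.Agent.H1.SPW

variable {X E Y : Type} [Fintype X] [Fintype E]

theorem SM_nonneg (c : Ch X E Y) (Lam : ℝ) (k h' : ℕ) (x' : X) (t : ℕ) (e : E) (y : Y) :
    0 ≤ c.SM Lam k h' x' t e y := by
  unfold Ch.SM
  refine mul_nonneg (c.use_nonneg y e) (Finset.sum_nonneg fun d _ => mul_nonneg ?_ ?_)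
  · split_ifs
    · exact c.P_nonneg _ _ _
    · exact le_rfl
  · exact c.P_nonneg _ _ _

theorem exp_eq (k h' t : ℕ) (h0 : 0 < h') (ht : t < k * h') :
    (h' - 1 - t % h') + (k - 1 - t / h') * h' = k * h' - 1 - t := by
  have h1 : t % h' < h' := Nat.mod_lt _ h0
  have h2 : t / h' < k := (Nat.div_lt_iff_lt_mul h0).2 ht
  have h3 : h' * (t / h') + t % h' = t := Nat.div_add_mod t h'
  obtain ⟨m, hm⟩ : ∃ m, k = t / h' + 1 + m := ⟨k - (t / h' + 1), by omega⟩
  have h4 : k - 1 - t / h' = m := by omega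
  rw [h4]
  have h5 : k * h' = h' * (t / h') + h' + m * h' := by
    rw [hm]
    have : t / h' + 1 + m - (t / h' + 1 + m) = 0 := by omega
    generalize t / h' = q
    ring
  omega

theorem SM_le (c : Ch X E Y) (Lam : ℝ) (k h' : ℕ) (x' : X) (t : ℕ) (e : E) (y : Y) (h0 : 0 < h')
    (ht : t < k * h') :
    c.SM Lam k h' x' t e y ≤ c.use y e * c.P (k * h' - 1 - t) (c.tgt e) x' := by
  unfold Ch.SM
  refine mul_le_mul_of_nonneg_left ?_ (c.use_nonneg y e)
  rw [← exp_eq k h' t h0 ht, c.P_add]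
  refine Finset.sum_le_sum fun d _ => mul_le_mul_of_nonneg_right ?_ (c.P_nonneg _ _ _)
  split_ifs
  · exact le_rfl
  · exact c.P_nonneg _ _ _

/-- the sum `I1` of the reversed chain -/
theorem rev_I1 [Fintype Y] (c : Ch X E Y) (Lam : ℝ) (k h' : ℕ) (x x' : X) :
    c.rev.I1 Lam k h' x' x = ∑ y, ∑ t₁ ∈ range (k * h'), ∑ t₂ ∈ range (k * h'),
      if t₁ < t₂ then ∑ e₁, ∑ e₂,
        (if c.rev.Amp Lam (k * h' - 1 - t₂) x' (c.src e₂) y then 0 else
          c.P (k * h' - 1 - t₂) (c.tgt e₂) x' * c.use y e₂ *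
            c.P (t₂ - t₁ - 1) (c.tgt e₁) (c.src e₂)) *
          c.rev.SM Lam k h' x (k * h' - 1 - t₁) e₁ y else 0 := by
  unfold Ch.I1
  refine Finset.sum_congr rfl fun y _ => ?_
  rw [← Finset.sum_range_reflect]
  rw [Finset.sum_comm' (s := range (k * h')) (t := fun _ => range (k * h'))
    (t' := range (k * h')) (s' := fun _ => range (k * h')) (by simp [and_comm])]
  rw [← Finset.sum_range_reflect]
  refine Finset.sum_congr rfl fun t₁ ht₁ => Finset.sum_congr rfl fun t₂ ht₂ => ?_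
  have h1 := Finset.mem_range.1 ht₁
  have h2 := Finset.mem_range.1 ht₂
  have h3 : k * h' - 1 - t₂ < k * h' - 1 - t₁ ↔ t₁ < t₂ := by omega
  by_cases h : t₁ < t₂
  · rw [if_pos (h3.2 h), if_pos h, Finset.sum_comm]
    refine Finset.sum_congr rfl fun e₁ _ => Finset.sum_congr rfl fun e₂ _ => ?_
    have h4 : k * h' - 1 - t₁ - (k * h' - 1 - t₂) - 1 = t₂ - t₁ - 1 := by omega
    rw [h4, c.rev_P, c.rev_P]
    rfl
  · rw [if_neg (fun h5 => h (h3.1 h5)), if_neg h]

theorem pf_RA : T_RA := by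
  intro X E Y _ _ _ c Lam k h' h0 x x'
  rw [rev_I1]
  unfold Ch.TQ Ch.DE Ch.I1
  rw [← Finset.sum_add_distrib, ← Finset.sum_add_distrib]
  refine Finset.sum_le_sum fun y _ => ?_
  rw [← Finset.sum_add_distrib, ← Finset.sum_add_distrib]
  refine Finset.sum_le_sum fun t₁ ht₁ => ?_
  rw [← Finset.sum_add_distrib, ← Finset.sum_add_distrib]
  refine Finset.sum_le_sum fun t₂ ht₂ => ?_
  have h1 := Finset.mem_range.1 ht₁
  have h2 := Finset.mem_range.1 ht₂
  by_cases hlt : t₁ < t₂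
  · rw [if_pos hlt, if_pos hlt, if_pos hlt, if_pos hlt]
    rw [← Finset.sum_add_distrib, ← Finset.sum_add_distrib]
    refine Finset.sum_le_sum fun e₁ _ => ?_
    rw [← Finset.sum_add_distrib, ← Finset.sum_add_distrib]
    refine Finset.sum_le_sum fun e₂ _ => ?_
    have hF := SM_nonneg c.rev Lam k h' x (k * h' - 1 - t₁) e₁ y
    have hS := SM_nonneg c Lam k h' x' t₂ e₂ y
    have hF0 := SM_le c.rev Lam k h' x (k * h' - 1 - t₁) e₁ y h0 (by omega)
    have hS0 := SM_le c Lam k h' x' t₂ e₂ y h0 h2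
    have h3 : k * h' - 1 - (k * h' - 1 - t₁) = t₁ := by omega
    rw [h3, c.rev_P, c.rev_use] at hF0
    change _ ≤ c.use y e₁ * c.P t₁ x (c.src e₁) at hF0
    have hM := c.P_nonneg (t₂ - t₁ - 1) (c.tgt e₁) (c.src e₂)
    have hu1 := c.use_nonneg y e₁
    have hu2 := c.use_nonneg y e₂
    have hP1 := c.P_nonneg t₁ x (c.src e₁)
    have hP2 := c.P_nonneg (k * h' - 1 - t₂) (c.tgt e₂) x'
    set F := c.rev.SM Lam k h' x (k * h' - 1 - t₁) e₁ y
    set S := c.SM Lam k h' x' t₂ e₂ y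
    set M := c.P (t₂ - t₁ - 1) (c.tgt e₁) (c.src e₂)
    set u1 := c.use y e₁
    set u2 := c.use y e₂
    set P1 := c.P t₁ x (c.src e₁)
    set P2 := c.P (k * h' - 1 - t₂) (c.tgt e₂) x'
    by_cases ha : c.Amp Lam t₁ x (c.tgt e₁) y
    · by_cases hb : c.rev.Amp Lam (k * h' - 1 - t₂) x' (c.src e₂) y
      · rw [if_pos ⟨ha, hb⟩, if_pos ha, if_pos hb, zero_mul, zero_mul, add_zero, add_zero]
        calc F * M * S ≤ (u1 * P1) * M * (u2 * P2) := by
              refine mul_le_mul (mul_le_mul_of_nonneg_right hF0 hM) hS0 hS (by positivity)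
          _ = P1 * u1 * M * u2 * P2 := by ring
      · rw [if_neg (fun h => hb h.2), if_pos ha, if_neg hb, zero_mul, zero_add, zero_add]
        calc F * M * S ≤ F * M * (u2 * P2) :=
              mul_le_mul_of_nonneg_left hS0 (mul_nonneg hF hM)
          _ = P2 * u2 * M * F := by ring
    · rw [if_neg (fun h => ha h.1), if_neg ha, zero_add]
      have h4 : 0 ≤ (if c.rev.Amp Lam (k * h' - 1 - t₂) x' (c.src e₂) y then 0 else
          P2 * u2 * M) * F := by
        refine mul_nonneg ?_ hF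
        split_ifs
        · exact le_rfl
        · positivity
      calc F * M * S ≤ (u1 * P1) * M * S :=
            mul_le_mul_of_nonneg_right (mul_le_mul_of_nonneg_right hF0 hM) hS
        _ = P1 * u1 * M * S := by ring
        _ ≤ _ := le_add_of_nonneg_right h4
  · rw [if_neg hlt, if_neg hlt, if_neg hlt, if_neg hlt]
    simp

end Pool.Agent.H1.SPW
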